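import Pool.Agent.X97.BD.Final

/-!
# Degrees that are DNC relative to `∅'` need not solve computable instances of `HT^{=2}₂`

There is a computable colouring `c : ℕ → {0, 1}` such that some degree `a` is DNC relative to `∅'`
and computes no infinite set `H` with `c (x + y)` constant over distinct `x, y ∈ H`.  This answers
Q1 of MP_bdf372_lc in the negative.  In fact one `c` works for all oracles: `∅'` may be replaced by
any set, even the partial functions `e ↦ Φ_e^{∅'}` by any sequence of partial functions.

Idea of the proof.

* The colour of `x` says in which half of the circle the phase `θ_x = β_0 + ... + β_{x-1}` lies.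
  The steps `β_s` are rational numbers, computed from `s` (`Pool.Agent.X97.BD.Comp`), which converge,
  but not effectively: `β_s` is the end point of the `s`-th approximation of the `s`-th of a
  sequence of nested intervals.  The next interval is found by a search: for a program `e` and a
  string `τ`, when at least `1/4000` of the extensions of `τ` are oracles with which `e` enumerates
  numbers `a < b < d` such that `aα, bα, dα` are nearly equally spaced on the circle for all `α` in
  a subinterval, then go to this subinterval.  This makes sure that `c (y+a), c (y+b), c (y+d)` are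
  not all equal, for all large `y`.  When there is no such subinterval then, by averaging over `α`,
  the program enumerates an infinite set for at most `3999/4000` of the extensions of `τ`.  Hence by
  density almost no oracle computes a solution (`Pool.Agent.X97.BD.Final`).
* Almost every oracle computes a function that avoids a given partial function
  (`Pool.Agent.X97.BD.Coin`), in particular one that is DNC relative to `∅'`.
-/

namespace Pool.Agent.Results.MP_bdf372_lc.NotDNC

/-- `h` is diagonally noncomputable for the sequence `Φ` of partial functions.  For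
`Φ e = Φ_e^{∅'}` this says that `h` is DNC relative to `∅'`. -/
def DNC (Φ : ℕ → ℕ →. ℕ) (h : ℕ → ℕ) : Prop := ∀ e, h e ∉ Φ e e

/-- `g` is the characteristic function of `H`. -/
def IsChar (g : ℕ → ℕ) (H : Set ℕ) : Prop := ∀ n, (n ∈ H → g n = 1) ∧ (n ∉ H → g n = 0)

/-- `H` is a solution of the instance `c` of `HT^{=2}₂`. -/
def Solution (c : ℕ → ℕ) (H : Set ℕ) : Prop :=
  H.Infinite ∧ ∃ i, ∀ x ∈ H, ∀ y ∈ H, x ≠ y → c (x + y) = i

/-- There is a computable `c : ℕ → {0, 1}` such that for every sequence `Φ` of partial functions
(in particular the functions `Φ_e^{∅'}` in any enumeration) there is an `X` which computes a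
function that is DNC for `Φ`, but computes no solution of the instance `c` of `HT^{=2}₂`. -/
theorem result : ∃ c : ℕ → ℕ, Computable c ∧ (∀ n, c n < 2) ∧ ∀ Φ : ℕ → ℕ →. ℕ,
    ∃ X : ℕ → ℕ, (∃ h : ℕ → ℕ, TuringReducible (h : ℕ →. ℕ) (X : ℕ →. ℕ) ∧ DNC Φ h) ∧
      ∀ H : Set ℕ, Solution c H → ∀ g : ℕ → ℕ, IsChar g H →
        ¬ TuringReducible (g : ℕ →. ℕ) (X : ℕ →. ℕ) := by
  obtain ⟨c, hc, h2, h⟩ := X97.BD.main
  refine ⟨c, hc, h2, fun Φ => ?_⟩
  obtain ⟨X, f, h3, h4, h5⟩ := h fun e => Φ e e
  exact ⟨X, ⟨f, h3, h4⟩, fun H hH g hg => h5 H hH.1 hH.2 g hg⟩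

end Pool.Agent.Results.MP_bdf372_lc.NotDNC
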